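import Pool.Agent.Lib.MP_2c0b9b_co_LB.FinalM

/-!
# For each strength the large set conjecture for three parts is a finite problem
-/

set_option autoImplicit false

namespace Pool.Agent.Results.MP_2c0b9b_co.FiniteReduction

/-- For every strength `t ≥ 4`: the conjecture holds for all `k` and `v` if and only if large sets
exist for the finitely many parameters `v = 3 ^ (m + 1) + t`, `3 ^ m ≤ k ≤ 3 ^ m + t`,
`t < k < 3 ^ (m + 1)` with `3 ^ m < 33 t`. -/
theorem result : ∀ t : ℕ, 4 ≤ t →
      ((∀ k v : ℕ, t ≤ k → k ≤ v →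
        ((∃ f : Finset (Fin v) → Fin 3, ∀ j : Fin 3, ∀ T : Finset (Fin v), T.card = t →
          3 * ((Finset.powersetCard k (Finset.univ : Finset (Fin v))).filter
                (fun B => f B = j ∧ T ⊆ B)).card = (v - t).choose (k - t))
        ↔ ∀ i : ℕ, i ≤ t → 3 ∣ (v - i).choose (k - i))) ↔
      (∀ m k : ℕ, 3 ^ m < 33 * t → 3 ^ m ≤ k → k ≤ 3 ^ m + t → t < k →
        k < 3 ^ (m + 1) →
        ∃ f : Finset (Fin (3 ^ (m + 1) + t)) → Fin 3, ∀ j : Fin 3,
          ∀ T : Finset (Fin (3 ^ (m + 1) + t)), T.card = t →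
          3 * ((Finset.powersetCard k
            (Finset.univ : Finset (Fin (3 ^ (m + 1) + t)))).filter
                (fun B => f B = j ∧ T ⊆ B)).card = (3 ^ (m + 1) + t - t).choose (k - t))) :=
  Pool.Agent.LS3.linear_reduction2

end Pool.Agent.Results.MP_2c0b9b_co.FiniteReduction
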