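import Pool.Agent.Lib.MP_2c0b9b_co_LB.FinalM

/-!
# Large sets of size three of arbitrary strength: blocks of linear size
-/

set_option autoImplicit false

namespace Pool.Agent.Results.MP_2c0b9b_co.LinearBlocks

/-- For every strength `t ≥ 4` and all `k`, `v` with `v ≥ 100 t` and `32 t ≤ k ≤ v - 32 t`, or with
`v ≥ 1000 t` and `18 t ≤ k ≤ v - 18 t`, or with `v ≥ 2 ^ 30 t` and `12 t ≤ k ≤ v - 12 t`, the
divisibility conditions are necessary and sufficient for the existence of a large set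
LS[3](t,k,v). -/
theorem result : ∀ t k v : ℕ, 4 ≤ t →
      ((100 * t ≤ v ∧ 32 * t ≤ k ∧ k + 32 * t ≤ v) ∨
        (1000 * t ≤ v ∧ 18 * t ≤ k ∧ k + 18 * t ≤ v) ∨
        (2 ^ 30 * t ≤ v ∧ 12 * t ≤ k ∧ k + 12 * t ≤ v)) →
      ((∃ f : Finset (Fin v) → Fin 3, ∀ j : Fin 3, ∀ T : Finset (Fin v), T.card = t →
          3 * ((Finset.powersetCard k (Finset.univ : Finset (Fin v))).filter
                (fun B => f B = j ∧ T ⊆ B)).card = (v - t).choose (k - t))
        ↔ ∀ i : ℕ, i ≤ t → 3 ∣ (v - i).choose (k - i)) :=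
  Pool.Agent.LS3.linear_blocks2

end Pool.Agent.Results.MP_2c0b9b_co.LinearBlocks
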