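import Pool.Agent.Lib.MP_2c0b9b_co.Final

/-!
# Large sets of size three of strength at most two
-/

set_option autoImplicit false

namespace Pool.Agent.Results.MP_2c0b9b_co.StrengthTwo

/-- The divisibility conditions are sufficient (and necessary) for the existence of a large set
LS[3](t,k,v), for every `t ≤ 2` and all `k`, `v`. -/
theorem result : ∀ t k v : ℕ, t ≤ 2 → t ≤ k → k ≤ v →
      ((∃ f : Finset (Fin v) → Fin 3, ∀ j : Fin 3, ∀ T : Finset (Fin v), T.card = t →
          3 * ((Finset.powersetCard k (Finset.univ : Finset (Fin v))).filter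
                (fun B => f B = j ∧ T ⊆ B)).card = (v - t).choose (k - t))
        ↔ ∀ i : ℕ, i ≤ t → 3 ∣ (v - i).choose (k - i)) :=
  Pool.Agent.LS3.strength_two

end Pool.Agent.Results.MP_2c0b9b_co.StrengthTwo
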